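import Pool.Agent.Y111.GT.Quasi

/-!
# Quasi-invariant integrals and the growth rate
-/

set_option autoImplicit false

noncomputable section

namespace Pool.Agent.Y111.GT

open Filter Topology Pool.Agent.H602R3.Cone Pool.Agent.H602R3.ConeTree

universe u

variable {G : Type u} [Group G]

/-- for every bounded nonzero `f ≥ 0` on `G` there is a positive linear form `μ` on `ℓ^∞(G;f)` with
`μ f = 1` and `μ (h (s ·)) ≤ κ μ h` for all `s ∈ S` and `h ≥ 0` -/
def QuasiIntegrals (S : Finset G) (κ : ℝ) : Prop :=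
  ∀ (f : G → ℝ) (hf : ∀ x, 0 ≤ f x), (∃ M, ∀ x, f x ≤ M) → (∃ x, f x ≠ 0) →
    ∃ μ : dom f hf →ₗ[ℝ] ℝ, (∀ h : dom f hf, (∀ x, 0 ≤ h.1 x) → 0 ≤ μ h) ∧
      μ ⟨f, self_mem⟩ = 1 ∧
      ∀ s ∈ S, ∀ h : dom f hf, (∀ x, 0 ≤ h.1 x) → μ (tl f hf s⁻¹ h) ≤ κ * μ h

/-- quasi-fixed points in cones give quasi-invariant integrals -/
theorem quasiIntegrals_of_fixed (S : Finset G) (hgen : Submonoid.closure (S : Set G) = ⊤) {κ : ℝ}
    (hκ : 1 ≤ κ) (hG : QuasiFixedForCones S κ) : QuasiIntegrals S κ := by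
  intro f hf hb hne
  obtain ⟨M, hM⟩ := hb
  obtain ⟨x₀, hx₀⟩ := hne
  have hinv : ∀ g, ∀ x ∈ CC f hf, rep f hf g x ∈ CC f hf := by
    intro g μ hμ h hh
    rw [rep_apply]
    exact hμ _ (fun x => hh _)
  have hδ : ev f hf x₀ ∈ CC f hf := fun h hh => hh x₀
  have hδ0 : ev f hf x₀ ≠ 0 := by
    intro h
    apply hx₀
    have : pr f hf (ev f hf x₀) ⟨f, self_mem⟩ = 0 := by rw [h, map_zero]; rfl
    exact this
  obtain ⟨μ, hμ, hμ0, hfix⟩ := hG (EE f hf) (CC f hf) (rep f hf) CC_proper CC_complete hinv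
    ⟨ev f hf x₀, hδ, hδ0, ev_bdd hM x₀⟩ CC_cobounded
  have hμ' : ∀ h : dom f hf, (∀ x, 0 ≤ h.1 x) → 0 ≤ pr f hf μ h := hμ
  have hq : ∀ s ∈ S, ∀ h : dom f hf, (∀ x, 0 ≤ h.1 x) →
      pr f hf μ (tl f hf s⁻¹ h) ≤ κ * pr f hf μ h := by
    intro s hs h hh
    have h1 := mem_CC.1 (hfix s hs) h hh
    rw [map_sub, map_smul, LinearMap.sub_apply, LinearMap.smul_apply, smul_eq_mul,
      rep_apply] at h1
    linarith
  -- bounds for all translates
  have hall : ∀ g : G, ∃ c : ℝ, 0 ≤ c ∧ ∀ h : dom f hf, (∀ x, 0 ≤ h.1 x) →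
      pr f hf μ (tl f hf g⁻¹ h) ≤ c * pr f hf μ h := by
    intro g
    have hg : g ∈ Submonoid.closure (S : Set G) := by rw [hgen]; trivial
    refine Submonoid.closure_induction_right (motive := fun g _ => ∃ c : ℝ, 0 ≤ c ∧
      ∀ h : dom f hf, (∀ x, 0 ≤ h.1 x) → pr f hf μ (tl f hf g⁻¹ h) ≤ c * pr f hf μ h)
      ⟨1, zero_le_one, fun h _ => ?_⟩ ?_ hg
    · rw [inv_one, tl_one, one_mul]
    · rintro a - s hs ⟨c, hc, hch⟩
      refine ⟨κ * c, by positivity, fun h hh => ?_⟩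
      rw [mul_inv_rev, tl_mul]
      refine (hq s hs (tl f hf a⁻¹ h) (fun x => hh (a⁻¹⁻¹ * x))).trans ?_
      rw [mul_assoc]
      exact mul_le_mul_of_nonneg_left (hch h hh) (by linarith)
  have hpos : 0 < pr f hf μ ⟨f, self_mem⟩ := by
    by_contra hcon
    apply hμ0
    apply EE_ext
    intro h
    rw [map_zero]
    refine eq_zero_of_self (μ := pr f hf μ) hμ' (fun g => ?_) h
    obtain ⟨c, hc, hch⟩ := hall g⁻¹
    have h1 := hch ⟨f, self_mem⟩ hf
    rw [inv_inv] at h1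
    exact h1.trans (mul_nonpos_of_nonneg_of_nonpos hc (not_lt.1 hcon))
  refine ⟨(pr f hf μ ⟨f, self_mem⟩)⁻¹ • pr f hf μ, ?_, ?_, ?_⟩
  · intro h hh
    exact mul_nonneg (inv_nonneg.2 hpos.le) (hμ' h hh)
  · rw [LinearMap.smul_apply, smul_eq_mul]
    exact inv_mul_cancel₀ hpos.ne'
  · intro s hs h hh
    rw [LinearMap.smul_apply, LinearMap.smul_apply, smul_eq_mul, smul_eq_mul]
    have h1 := mul_le_mul_of_nonneg_left (hq s hs h hh) (inv_nonneg.2 hpos.le)
    linarith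

/-- With quasi-invariant integrals no flow survives. -/
lemma exists_lt (S : Finset G) {κ β : ℝ} (hκ : 1 ≤ κ) (hFP : QuasiIntegrals S κ) (hβ : κ < β) :
    ∃ n, a S β n [] < 1 := by
  classical
  by_contra hs
  push Not at hs
  have hs' : ∀ n, ¬ a S β n [] < 1 := fun n => not_lt.2 (hs n)
  have hβ0 : 0 < β := by linarith
  have hf : ∀ x, 0 ≤ fG S β x := fG_nonneg S hβ0
  obtain ⟨μ, hpos, hμ, hinv⟩ := hFP (fG S β) hf ⟨1, fG_le_one S hβ0⟩
    ⟨1, by rw [fG_one S hs']; exact one_ne_zero⟩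
  -- the pieces of `f`
  have hmem : ∀ s, hG S β s ∈ dom (fG S β) hf := by
    intro s
    refine ⟨[1], fun x => ?_⟩
    rw [abs_of_nonneg (hG_nonneg S hβ0 s x)]
    simpa using hG_le S hβ0 s x
  let F : dom (fG S β) hf := ⟨fG S β, self_mem⟩
  let H : G → dom (fG S β) hf := fun s => ⟨hG S β s, hmem s⟩
  have e1 : 0 ≤ μ ((∑ s ∈ S, tl (fG S β) hf s⁻¹ (H s)) - β • F) := by
    apply hpos
    intro x
    rw [Submodule.coe_sub, Pi.sub_apply, Submodule.coe_smul, Pi.smul_apply, smul_eq_mul,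
      AddSubmonoidClass.coe_finsetSum, Finset.sum_apply]
    have h1 := fG_super S hβ0 x
    have h2 : ∑ s ∈ S, (tl (fG S β) hf s⁻¹ (H s)).1 x = ∑ s ∈ S, hG S β s (s * x) := by
      refine Finset.sum_congr rfl fun s _ => ?_
      show hG S β s (s⁻¹⁻¹ * x) = _
      rw [inv_inv]
    rw [h2]
    show 0 ≤ _ - β * fG S β x
    linarith
  have e2 : 0 ≤ μ (F - ∑ s ∈ S, H s) := by
    apply hpos
    intro x
    rw [Submodule.coe_sub, Pi.sub_apply, AddSubmonoidClass.coe_finsetSum, Finset.sum_apply]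
    have := sum_hG_le S hβ0 x
    show 0 ≤ fG S β x - ∑ s ∈ S, hG S β s x
    linarith
  have e3 : ∑ s ∈ S, μ (tl (fG S β) hf s⁻¹ (H s)) ≤ κ * ∑ s ∈ S, μ (H s) := by
    rw [Finset.mul_sum]
    exact Finset.sum_le_sum fun s hs => hinv s hs (H s) (hG_nonneg S hβ0 s)
  rw [map_sub, map_sum, map_smul, smul_eq_mul] at e1
  rw [map_sub, map_sum] at e2
  have h3 : μ F = 1 := hμ
  rw [h3] at e1 e2
  have h4 : κ * ∑ s ∈ S, μ (H s) ≤ κ * 1 := mul_le_mul_of_nonneg_left (by linarith) (by linarith)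
  linarith

/-- quasi-invariant integrals bound the growth rate -/
theorem growthLe_of_integrals (S : Finset G) {κ : ℝ} (hκ : 1 ≤ κ) (hFP : QuasiIntegrals S κ) :
    GrowthLe S κ := by
  intro r hr
  obtain ⟨β, hβ, hβr⟩ : ∃ β : ℝ, κ < β ∧ β < r := exists_between hr
  have hr0 : 0 < r := by linarith
  obtain ⟨n₀, hn₀⟩ := exists_lt S hκ hFP hβ
  obtain ⟨C, hC0, hC⟩ := growth_of_lt S (by linarith) hn₀
  have hr' : |β / r| < 1 := by
    have hβ0 : 0 < β := by linarith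
    rw [abs_of_pos (by positivity), div_lt_one (by positivity)]
    exact hβr
  have t1 : Tendsto (fun N : ℕ => (N : ℝ) * (β / r) ^ N) atTop (𝓝 0) :=
    tendsto_self_mul_const_pow_of_abs_lt_one hr'
  have t2 : Tendsto (fun N : ℕ => (β / r) ^ N) atTop (𝓝 0) :=
    tendsto_pow_atTop_nhds_zero_of_abs_lt_one hr'
  have t3 : Tendsto (fun N : ℕ => C * ((N : ℝ) * (β / r) ^ N + (β / r) ^ N))
      atTop (𝓝 (C * (0 + 0))) := (t1.add t2).const_mul C
  rw [add_zero, mul_zero] at t3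
  filter_upwards [t3.eventually (gt_mem_nhds (zero_lt_one))] with N hN
  have hp : (0 : ℝ) < r ^ N := by positivity
  refine (hC N).trans ?_
  have h5 : C * ((N : ℝ) + 1) * β ^ N =
      (C * ((N : ℝ) * (β / r) ^ N + (β / r) ^ N)) * r ^ N := by
    rw [div_pow]
    field_simp
  rw [h5]
  calc _ ≤ 1 * r ^ N := mul_le_mul_of_nonneg_right hN.le hp.le
    _ = _ := one_mul _

theorem fixed_of_growthLe (S : Finset G) (hgen : Submonoid.closure (S : Set G) = ⊤) {κ : ℝ}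
    (hκ : 1 ≤ κ) (h : GrowthLe S κ) : QuasiFixedForCones S κ := by
  intro E _ _ _ _ _ _ _ C ρ _ hcomp hρ hlb hcb
  exact exists_quasi_fixed S hgen hκ h C ρ hcomp hρ hlb hcb

/-- for a finite set that generates the group as a monoid, quasi-fixed points for `κ = 1` are the
same as fixed points -/
theorem fixed_iff (S : Finset G) (hgen : Submonoid.closure (S : Set G) = ⊤) :
    FixedPointPropertyForCones G ↔ QuasiFixedForCones S 1 := by
  constructor
  · intro h E _ _ _ _ _ _ _ C ρ hp hcomp hρ hlb hcb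
    obtain ⟨x, hx, hx0, hfix⟩ := h E C ρ hp hcomp hρ hlb hcb
    refine ⟨x, hx, hx0, fun s _ => ?_⟩
    rw [hfix, one_smul, sub_self]
    exact C.zero_mem
  · intro h E _ _ _ _ _ _ _ C ρ hp hcomp hρ hlb hcb
    obtain ⟨x, hx, hx0, hfix⟩ := h E C ρ hp hcomp hρ hlb hcb
    refine ⟨x, hx, hx0, ?_⟩
    have hall : ∀ g : G, x - ρ g x ∈ C := by
      intro g
      have hg : g ∈ Submonoid.closure (S : Set G) := by rw [hgen]; trivial
      refine Submonoid.closure_induction_right (motive := fun g _ => x - ρ g x ∈ C) ?_ ?_ hg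
      · rw [map_one]
        show x - x ∈ C
        rw [sub_self]
        exact C.zero_mem
      · rintro a - s hs ha
        have h1 := hfix s hs
        rw [one_smul] at h1
        have h2 := C.add_mem ha (hρ a _ h1)
        have h3 : x - ρ a x + ρ a (x - ρ s x) = x - ρ (a * s) x := by
          rw [map_sub, map_mul]
          show x - ρ a x + (ρ a x - ρ a (ρ s x)) = x - ρ a (ρ s x)
          abel
        rwa [h3] at h2
    intro g
    have h1 := hρ g _ (hall g⁻¹)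
    have h2 : ρ g (x - ρ g⁻¹ x) = -(x - ρ g x) := by
      rw [map_sub]
      have h3 : ρ g (ρ g⁻¹ x) = (ρ (g * g⁻¹)) x := by rw [map_mul]; rfl
      rw [h3, mul_inv_cancel, map_one]
      show ρ g x - x = -(x - ρ g x)
      abel
    rw [h2] at h1
    have h3 := hp _ (hall g) h1
    exact (sub_eq_zero.1 h3).symm

/-- the fixed-point property for cones gives invariant integrals -/
theorem quasiIntegrals_of_FPC (hG : FixedPointPropertyForCones G) (S : Finset G) :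
    QuasiIntegrals S 1 := by
  intro f hf hb hne
  obtain ⟨μ, h1, h2, h3⟩ := exists_integral hG f hf hb hne
  refine ⟨(μ ⟨f, self_mem⟩)⁻¹ • μ, ?_, ?_, ?_⟩
  · intro h hh
    exact mul_nonneg (inv_nonneg.2 h3.le) (h1 h hh)
  · rw [LinearMap.smul_apply, smul_eq_mul]
    exact inv_mul_cancel₀ h3.ne'
  · intro s _ h _
    rw [LinearMap.smul_apply, LinearMap.smul_apply, h2, one_mul]

end Pool.Agent.Y111.GT
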