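import Pool.Agent.H602R3.ConeInt
import Pool.Agent.H602R3.ConeFlow

/-!
# Growth rate and quasi-fixed points in cones

`GrowthLe S κ`: the growth rate of the balls of the finite set `S` is at most `κ`.  If `S` generates
the group as a monoid and the growth rate is at most `κ`, then every representation on a weakly
complete proper cone of locally bounded and of cobounded type has `x ≠ 0` with `s x ≤ κ x` for all
`s ∈ S`.
-/

set_option autoImplicit false

noncomputable section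

namespace Pool.Agent.Y111.GT

open Filter Topology Pool.Agent.H602R3.Cone Pool.Agent.H602R3.ConeTree

universe u

variable {G : Type u} [Group G]

/-- the growth rate of `S` is at most `κ` -/
def GrowthLe (S : Finset G) (κ : ℝ) : Prop :=
  ∀ r : ℝ, κ < r → ∀ᶠ n : ℕ in atTop, ((ballS S n).ncard : ℝ) ≤ r ^ n

/-- every representation on a weakly complete proper cone of locally bounded and of cobounded type
has `x ≠ 0` with `s x ≤ κ x` for all `s ∈ S` -/
def QuasiFixedForCones (S : Finset G) (κ : ℝ) : Prop :=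
  ∀ (E : Type u) [AddCommGroup E] [Module ℝ E] [TopologicalSpace E] [IsTopologicalAddGroup E]
    [ContinuousSMul ℝ E] [LocallyConvexSpace ℝ E] [T2Space E]
    (C : PointedCone ℝ E) (ρ : G →* (E →L[ℝ] E)),
    (∀ x ∈ C, -x ∈ C → x = 0) →
    WeaklyComplete (C : Set E) →
    (∀ g, ∀ x ∈ C, ρ g x ∈ C) →
    (∃ x ∈ C, x ≠ 0 ∧ Bornology.IsVonNBounded ℝ (Set.range fun g => ρ g x)) →
    (∃ φ : E →L[ℝ] ℝ, ∀ ψ : E →L[ℝ] ℝ, ∃ l : List G,
      ∀ x ∈ C, |ψ x| ≤ (l.map fun g => φ (ρ g⁻¹ x)).sum) →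
    ∃ x ∈ C, x ≠ 0 ∧ ∀ s ∈ S, κ • x - ρ s x ∈ C

lemma ballS_finite (S : Finset G) (n : ℕ) : (ballS S n).Finite := (ballS_card S (β := 1) one_pos n).1

lemma exists_small {S : Finset G} {κ : ℝ} (hκ : 1 ≤ κ) (hsub : GrowthLe S κ) {lam δ : ℝ}
    (h0 : 0 < lam) (h1 : lam * κ < 1)
    (hδ : 0 < δ) : ∃ n : ℕ, lam ^ n * ((ballS S (n + 1)).ncard : ℝ) ≤ δ := by
  obtain ⟨r, hr1, hr2⟩ : ∃ r : ℝ, κ < r ∧ lam * r < 1 := by
    have : κ < 1 / lam := by rw [lt_div_iff₀ h0]; linarith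
    obtain ⟨r, hr1, hr2⟩ := exists_between this
    exact ⟨r, hr1, by rw [lt_div_iff₀ h0] at hr2; linarith⟩
  have hr0 : 0 < r := by linarith
  have t1 : Tendsto (fun n : ℕ => r * (lam * r) ^ n) atTop (𝓝 (r * 0)) :=
    (tendsto_pow_atTop_nhds_zero_of_lt_one (by positivity) hr2).const_mul r
  rw [mul_zero] at t1
  have h2 := t1.eventually (gt_mem_nhds hδ)
  have h3 := (tendsto_add_atTop_nat 1).eventually (hsub r hr1)
  obtain ⟨n, hn2, hn3⟩ := (h2.and h3).exists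
  refine ⟨n, ?_⟩
  calc lam ^ n * ((ballS S (n + 1)).ncard : ℝ) ≤ lam ^ n * r ^ (n + 1) :=
        mul_le_mul_of_nonneg_left hn3 (by positivity)
    _ = r * (lam * r) ^ n := by rw [mul_pow, pow_succ]; ring
    _ ≤ δ := hn2.le

variable {E : Type*} [AddCommGroup E] [Module ℝ E] [TopologicalSpace E]
  [IsTopologicalAddGroup E] [ContinuousSMul ℝ E]

/-- partial orbit sums over balls -/
def Y (ρ : G →* (E →L[ℝ] E)) (S : Finset G) (x : E) (k : ℕ) : E :=
  ∑ g ∈ (ballS_finite S k).toFinset, ρ g x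

omit [ContinuousSMul ℝ E] in
lemma Y_step (C : PointedCone ℝ E) (ρ : G →* (E →L[ℝ] E)) (hρ : ∀ g, ∀ x ∈ C, ρ g x ∈ C)
    (S : Finset G) {x : E} (hx : x ∈ C) (k : ℕ) {s : G} (hs : s ∈ S) :
    Y ρ S x (k + 1) - ρ s (Y ρ S x k) ∈ C := by
  classical
  have e1 : ρ s (Y ρ S x k) = ∑ g ∈ (ballS_finite S k).toFinset.image (fun g => s * g), ρ g x := by
    rw [Finset.sum_image (fun a _ b _ h => mul_left_cancel h), Y, map_sum]
    refine Finset.sum_congr rfl fun g _ => ?_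
    rw [map_mul]
    rfl
  have hsub : (ballS_finite S k).toFinset.image (fun g => s * g) ⊆
      (ballS_finite S (k + 1)).toFinset := by
    intro g hg
    obtain ⟨h, hh, rfl⟩ := Finset.mem_image.1 hg
    rw [Set.Finite.mem_toFinset] at hh ⊢
    obtain ⟨l, hl, h1, rfl⟩ := hh
    refine ⟨s :: l, by simpa using hl, ?_, by simp⟩
    intro y hy
    rcases List.mem_cons.1 hy with rfl | h
    · exact hs
    · exact h1 y h
  rw [e1, Y, ← Finset.sum_sdiff hsub, add_sub_cancel_right]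
  exact sum_mem fun g _ => hρ g x hx

omit [ContinuousSMul ℝ E] in
lemma Y_mem (C : PointedCone ℝ E) (ρ : G →* (E →L[ℝ] E)) (hρ : ∀ g, ∀ x ∈ C, ρ g x ∈ C)
    (S : Finset G) {x : E} (hx : x ∈ C) (k : ℕ) : Y ρ S x k ∈ C :=
  sum_mem fun g _ => hρ g x hx

/-- the almost invariant vector -/
def yy (ρ : G →* (E →L[ℝ] E)) (S : Finset G) (x : E) (lam : ℝ) (n : ℕ) : E :=
  ∑ k ∈ Finset.range (n + 1), lam ^ k • Y ρ S x k

omit [TopologicalSpace E] [IsTopologicalAddGroup E] [ContinuousSMul ℝ E] in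
lemma smul_mem' (C : PointedCone ℝ E) {c : ℝ} (hc : 0 ≤ c) {x : E} (hx : x ∈ C) : c • x ∈ C :=
  C.smul_mem hc hx

omit [ContinuousSMul ℝ E] in
lemma yy_mem (C : PointedCone ℝ E) (ρ : G →* (E →L[ℝ] E)) (hρ : ∀ g, ∀ x ∈ C, ρ g x ∈ C)
    (S : Finset G) {x : E} (hx : x ∈ C) {lam : ℝ} (hl : 0 ≤ lam) (n : ℕ) : yy ρ S x lam n ∈ C :=
  sum_mem fun k _ => smul_mem' C (pow_nonneg hl k) (Y_mem C ρ hρ S hx k)

omit [ContinuousSMul ℝ E] in
lemma yy_step (C : PointedCone ℝ E) (ρ : G →* (E →L[ℝ] E)) (hρ : ∀ g, ∀ x ∈ C, ρ g x ∈ C)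
    (S : Finset G) {x : E} (hx : x ∈ C) {lam : ℝ} (hl : 0 < lam) (n : ℕ) {s : G}
    (hs : s ∈ S) :
    lam⁻¹ • yy ρ S x lam n + lam ^ n • Y ρ S x (n + 1) - ρ s (yy ρ S x lam n) ∈ C := by
  have e1 : lam⁻¹ • yy ρ S x lam n + lam ^ n • Y ρ S x (n + 1) =
      lam⁻¹ • Y ρ S x 0 + ∑ k ∈ Finset.range (n + 1), lam ^ k • Y ρ S x (k + 1) := by
    rw [yy, Finset.sum_range_succ' (fun k => lam ^ k • Y ρ S x k) n, pow_zero, one_smul, smul_add,
      Finset.smul_sum, Finset.sum_range_succ (fun k => lam ^ k • Y ρ S x (k + 1)) n]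
    have : ∀ k ∈ Finset.range n, lam⁻¹ • lam ^ (k + 1) • Y ρ S x (k + 1) =
        lam ^ k • Y ρ S x (k + 1) := by
      intro k _
      rw [smul_smul, pow_succ, mul_comm (lam ^ k) lam, ← mul_assoc, inv_mul_cancel₀ hl.ne', one_mul]
    rw [Finset.sum_congr rfl this]
    abel
  have e2 : ρ s (yy ρ S x lam n) = ∑ k ∈ Finset.range (n + 1), lam ^ k • ρ s (Y ρ S x k) := by
    rw [yy, map_sum]
    refine Finset.sum_congr rfl fun k _ => ?_
    rw [map_smul]
  rw [e1, e2, add_sub_assoc, ← Finset.sum_sub_distrib]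
  refine add_mem (smul_mem' C (inv_nonneg.2 hl.le) (Y_mem C ρ hρ S hx 0)) (sum_mem fun k _ => ?_)
  rw [← smul_sub]
  exact smul_mem' C (pow_nonneg hl.le k) (Y_step C ρ hρ S hx k hs)

omit [ContinuousSMul ℝ E] in
lemma list_form (k : List G) (φ : E →L[ℝ] ℝ) (ρ : G →* (E →L[ℝ] E)) :
    ∃ P : E →L[ℝ] ℝ, ∀ x, P x = (k.map fun g => φ (ρ g⁻¹ x)).sum := by
  induction k with
  | nil => exact ⟨0, fun x => by simp⟩
  | cons g k ih =>
    obtain ⟨P, hP⟩ := ih
    refine ⟨φ.comp (ρ g⁻¹) + P, fun x => ?_⟩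
    rw [List.map_cons, List.sum_cons, ← hP]
    rfl

omit [Group G] in
lemma list_le {l : List G} {a b : G → ℝ} (h : ∀ g, a g ≤ b g) : (l.map a).sum ≤ (l.map b).sum :=
  List.sum_le_sum fun g _ => h g

/-- The quasi-fixed point theorem. -/
theorem exists_quasi_fixed [LocallyConvexSpace ℝ E] [T2Space E] (S : Finset G)
    (hgen : Submonoid.closure (S : Set G) = ⊤) {κ : ℝ} (hκ : 1 ≤ κ) (hsub : GrowthLe S κ)
    (C : PointedCone ℝ E) (ρ : G →* (E →L[ℝ] E))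
    (hcomp : WeaklyComplete (C : Set E))
    (hρ : ∀ g : G, ∀ x ∈ C, (ρ g) x ∈ C)
    (hlb : ∃ x ∈ C, x ≠ 0 ∧ Bornology.IsVonNBounded ℝ (Set.range fun g : G => (ρ g) x))
    (hcb : ∃ φ : E →L[ℝ] ℝ, ∀ ψ : E →L[ℝ] ℝ, ∃ l : List G,
      ∀ x ∈ C, |ψ x| ≤ (l.map fun g => φ (ρ g⁻¹ x)).sum) :
    ∃ x ∈ C, x ≠ 0 ∧ ∀ s ∈ S, κ • x - ρ s x ∈ C := by
  classical
  -- a positive cobounding form
  obtain ⟨P, hP0, hP⟩ : ∃ P : E →L[ℝ] ℝ, (∀ x ∈ C, 0 ≤ P x) ∧
      ∀ l : E →L[ℝ] ℝ, ∃ g : List G, ∀ x ∈ C, |l x| ≤ (g.map fun g => P (ρ g⁻¹ x)).sum := by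
    obtain ⟨φ, hφ⟩ := hcb
    obtain ⟨k, hk⟩ := hφ φ
    obtain ⟨P, hPv⟩ := list_form k φ ρ
    refine ⟨P, fun x hx => ?_, fun l => ?_⟩
    · rw [hPv]; exact (abs_nonneg _).trans (hk x hx)
    · obtain ⟨g, hg⟩ := hφ l
      refine ⟨g, fun x hx => (hg x hx).trans (list_le fun i => ?_)⟩
      rw [hPv]
      exact (le_abs_self _).trans (hk _ (hρ _ x hx))
  obtain ⟨x₁, hx₁, hx₁0, hbd⟩ := hlb
  -- a point of the orbit where `P` is positive
  obtain ⟨g₀, hg₀⟩ : ∃ g, 0 < P (ρ g x₁) := by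
    by_contra hcon
    push Not at hcon
    apply hx₁0
    by_contra hne
    obtain ⟨l, hl⟩ := SeparatingDual.exists_ne_zero (R := ℝ) hne
    obtain ⟨g, hg⟩ := hP l
    apply hl
    have h1 := hg x₁ hx₁
    have h2 : (g.map fun g => P (ρ g⁻¹ x₁)).sum ≤ (g.map fun _ => (0 : ℝ)).sum :=
      list_le fun i => hcon _
    have h3 : (g.map fun _ => (0 : ℝ)).sum = 0 := by simp
    exact abs_eq_zero.1 (le_antisymm ((h1.trans h2).trans h3.le) (abs_nonneg _))
  let x₀ : E := ρ g₀ x₁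
  have hx₀ : x₀ ∈ C := hρ _ _ hx₁
  -- uniform bound of `P` on the orbit
  obtain ⟨M, hM0, hM⟩ : ∃ M : ℝ, 0 < M ∧ ∀ g, P (ρ g x₀) ≤ M := by
    have h1 : Bornology.IsVonNBounded ℝ (P '' (Set.range fun g : G => (ρ g) x₁)) := hbd.image P
    rw [NormedSpace.isVonNBounded_iff] at h1
    obtain ⟨R, hR⟩ := h1.exists_norm_le
    refine ⟨|R| + 1, by positivity, fun g => ?_⟩
    have h2 : P (ρ g x₀) = P (ρ (g * g₀) x₁) := by
      simp only [x₀, map_mul]; rfl
    rw [h2]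
    have h3 := hR _ ⟨_, ⟨g * g₀, rfl⟩, rfl⟩
    have h4 := le_abs_self R
    have h5 := le_abs_self (P (ρ (g * g₀) x₁))
    rw [Real.norm_eq_abs] at h3
    linarith
  have hPx₀ : 0 < P x₀ := hg₀
  let lam : ℕ → ℝ := fun i => (κ + 1 / ((i : ℝ) + 1))⁻¹
  have hpos1 : ∀ i : ℕ, (0 : ℝ) < 1 / ((i : ℝ) + 1) := fun i => by positivity
  have hle1 : ∀ i : ℕ, (1 : ℝ) / ((i : ℝ) + 1) ≤ 1 := fun i => by
    rw [div_le_one (by positivity)]
    have : (0 : ℝ) ≤ i := by positivity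
    linarith
  have hlaminv : ∀ i, (lam i)⁻¹ = κ + 1 / ((i : ℝ) + 1) := fun i => by simp only [lam, inv_inv]
  have hlam0 : ∀ i, 0 < lam i := fun i => by
    have := hpos1 i
    simp only [lam]
    exact inv_pos.2 (by linarith)
  have hlam1 : ∀ i, lam i * κ < 1 := fun i => by
    have := hpos1 i
    simp only [lam]
    rw [inv_mul_lt_one₀ (by linarith)]
    linarith
  have hN : ∀ i : ℕ, ∃ n : ℕ, lam i ^ n * ((ballS S (n + 1)).ncard : ℝ) ≤
      1 / ((i : ℝ) + 1) := fun i =>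
    exists_small hκ hsub (hlam0 i) (hlam1 i) (hpos1 i)
  choose N hN using hN
  let y : ℕ → E := fun i => yy ρ S x₀ (lam i) (N i)
  have hyC : ∀ i, y i ∈ C := fun i => yy_mem C ρ hρ S hx₀ (hlam0 i).le _
  have hYge : P x₀ ≤ P (Y ρ S x₀ 0) := by
    have h1 : (1 : G) ∈ (ballS_finite S 0).toFinset := by
      rw [Set.Finite.mem_toFinset]
      exact ⟨[], by simp, by simp, rfl⟩
    rw [Y, map_sum]
    have h2 := Finset.single_le_sum (f := fun g => P (ρ g x₀))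
      (fun g _ => hP0 _ (hρ g _ hx₀)) h1
    simpa using h2
  have hyP : ∀ i, P x₀ ≤ P (y i) := by
    intro i
    simp only [y, yy, map_sum, map_smul, smul_eq_mul]
    have h2 := Finset.single_le_sum
      (f := fun k => lam i ^ k * P (Y ρ S x₀ k))
      (fun k _ => mul_nonneg (pow_nonneg (hlam0 i).le k) (hP0 _ (Y_mem C ρ hρ S hx₀ k)))
      (Finset.mem_range.2 (Nat.succ_pos (N i)))
    simp only [pow_zero, one_mul] at h2
    exact hYge.trans h2
  have hyP0 : ∀ i, 0 < P (y i) := fun i => hPx₀.trans_le (hyP i)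
  let z : ℕ → E := fun i => (P (y i))⁻¹ • y i
  let e : ℕ → E := fun i => (P (y i))⁻¹ • (lam i ^ (N i) • Y ρ S x₀ (N i + 1))
  have hzC : ∀ i, z i ∈ C := fun i => smul_mem' C (inv_nonneg.2 (hyP0 i).le) (hyC i)
  have heC : ∀ i, e i ∈ C := fun i => smul_mem' C (inv_nonneg.2 (hyP0 i).le)
    (smul_mem' C (pow_nonneg (hlam0 i).le _) (Y_mem C ρ hρ S hx₀ _))
  have hPz : ∀ i, P (z i) = 1 := fun i => by
    simp only [z, map_smul, smul_eq_mul]
    exact inv_mul_cancel₀ (hyP0 i).ne'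
  have hstep : ∀ i : ℕ, ∀ s ∈ S, (lam i)⁻¹ • z i + e i - ρ s (z i) ∈ C := by
    intro i s hs
    have h1 := yy_step C ρ hρ S hx₀ (hlam0 i) (N i) hs
    have h2 := smul_mem' C (inv_nonneg.2 (hyP0 i).le) h1
    have h3 : (P (y i))⁻¹ • ((lam i)⁻¹ • y i + lam i ^ (N i) • Y ρ S x₀ (N i + 1) - ρ s (y i)) =
        (lam i)⁻¹ • z i + e i - ρ s (z i) := by
      simp only [z, e, map_smul, smul_sub, smul_add]
      rw [smul_comm (P (y i))⁻¹ (lam i)⁻¹ (y i)]
    rw [← h3]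
    exact h2
  -- the error is small
  have heP : ∀ i : ℕ, ∀ g : G, P (ρ g (e i)) ≤ M / P x₀ * (1 / ((i : ℝ) + 1)) := by
    intro i g
    have h1 : P (ρ g (Y ρ S x₀ (N i + 1))) ≤ ((ballS S (N i + 1)).ncard : ℝ) * M := by
      rw [Y, map_sum, map_sum]
      refine (Finset.sum_le_card_nsmul _ _ M fun h _ => ?_).trans ?_
      · have : P (ρ g (ρ h x₀)) = P (ρ (g * h) x₀) := by rw [map_mul]; rfl
        rw [this]; exact hM _
      · rw [nsmul_eq_mul, Set.ncard_eq_toFinset_card _ (ballS_finite S (N i + 1))]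
    simp only [e, map_smul, smul_eq_mul]
    have h2 : lam i ^ N i * P (ρ g (Y ρ S x₀ (N i + 1))) ≤ M * (1 / ((i : ℝ) + 1)) := by
      calc lam i ^ N i * P (ρ g (Y ρ S x₀ (N i + 1))) ≤
            lam i ^ N i * (((ballS S (N i + 1)).ncard : ℝ) * M) :=
            mul_le_mul_of_nonneg_left h1 (pow_nonneg (hlam0 i).le _)
        _ = M * (lam i ^ N i * ((ballS S (N i + 1)).ncard : ℝ)) := by ring
        _ ≤ _ := mul_le_mul_of_nonneg_left (hN i) hM0.le
    have h3 : (P (y i))⁻¹ ≤ (P x₀)⁻¹ := inv_anti₀ hPx₀ (hyP i)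
    calc (P (y i))⁻¹ * (lam i ^ N i * P (ρ g (Y ρ S x₀ (N i + 1)))) ≤
          (P (y i))⁻¹ * (M * (1 / ((i : ℝ) + 1))) :=
          mul_le_mul_of_nonneg_left h2 (inv_nonneg.2 (hyP0 i).le)
      _ ≤ (P x₀)⁻¹ * (M * (1 / ((i : ℝ) + 1))) :=
          mul_le_mul_of_nonneg_right h3 (by positivity)
      _ = _ := by ring
  have heP' : ∀ i : ℕ, ∀ g : G, P (ρ g (e i)) ≤ M / P x₀ := fun i g => by
    refine (heP i g).trans ?_
    have : M / P x₀ * (1 / ((i : ℝ) + 1)) ≤ M / P x₀ * 1 :=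
      mul_le_mul_of_nonneg_left (hle1 i) (by positivity)
    linarith
  -- bounds on the orbit
  have hB : ∀ g : G, ∃ B : ℝ, ∀ i, P (ρ g (z i)) ≤ B := by
    intro g
    have hg : g ∈ Submonoid.closure (S : Set G) := by rw [hgen]; trivial
    refine Submonoid.closure_induction_right (motive := fun g _ => ∃ B : ℝ, ∀ i, P (ρ g (z i)) ≤ B)
      ⟨1, fun i => ?_⟩ ?_ hg
    · rw [map_one]
      exact (hPz i).le
    · rintro a - s hs ⟨B, hB⟩
      refine ⟨(κ + 1) * |B| + M / P x₀, fun i => ?_⟩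
      have h1 := hP0 _ (hρ a _ (hstep i s hs))
      rw [map_sub, map_add, map_smul, map_sub, map_add, map_smul, smul_eq_mul, hlaminv] at h1
      have h2 : P (ρ (a * s) (z i)) = P (ρ a (ρ s (z i))) := by rw [map_mul]; rfl
      rw [h2]
      have h3 := heP' i a
      have h4 : (κ + 1 / ((i : ℝ) + 1)) * P (ρ a (z i)) ≤ (κ + 1) * |B| := by
        refine mul_le_mul (by linarith [hle1 i]) ((hB i).trans (le_abs_self B))
          (hP0 _ (hρ a _ (hzC i))) (by linarith)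
      linarith
  choose B hB using hB
  -- limits along an ultrafilter
  let U : Ultrafilter ℕ := Ultrafilter.of atTop
  have hU : (U : Filter ℕ) ≤ atTop := Ultrafilter.of_le _
  have ht1 : Tendsto (fun i : ℕ => 1 / ((i : ℝ) + 1)) (U : Filter ℕ) (𝓝 0) :=
    tendsto_one_div_add_atTop_nhds_zero_nat.mono_left hU
  have hlamt : Tendsto (fun i : ℕ => (lam i)⁻¹) (U : Filter ℕ) (𝓝 κ) := by
    simp only [hlaminv]
    simpa using ht1.const_add κ
  have hlim : ∀ l : E →L[ℝ] ℝ, ∃ c : ℝ, Tendsto (fun i => l (z i)) (U : Filter ℕ) (𝓝 c) := by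
    intro l
    obtain ⟨g, hg⟩ := hP l
    set b : ℝ := (g.map fun g => B g⁻¹).sum with hb
    have h1 : ∀ i, l (z i) ∈ Set.Icc (-b) b := by
      intro i
      rw [Set.mem_Icc, ← abs_le]
      exact (hg _ (hzC i)).trans (list_le fun j => hB _ i)
    obtain ⟨c, -, hc⟩ := (isCompact_Icc (a := -b) (b := b)).ultrafilter_le_nhds
      (U.map (fun i => l (z i))) (by
        rw [le_principal_iff]
        exact (Filter.Eventually.of_forall h1 :
          ∀ᶠ i in (U : Filter ℕ), l (z i) ∈ Set.Icc (-b) b))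
    exact ⟨c, hc⟩
  choose F hF using hlim
  have het : ∀ l : E →L[ℝ] ℝ, Tendsto (fun i => l (e i)) (U : Filter ℕ) (𝓝 0) := by
    intro l
    obtain ⟨g, hg⟩ := hP l
    have h1 : Tendsto (fun i : ℕ => (g.length : ℝ) * (M / P x₀ * (1 / ((i : ℝ) + 1))))
        (U : Filter ℕ) (𝓝 ((g.length : ℝ) * (M / P x₀ * 0))) := (ht1.const_mul _).const_mul _
    rw [mul_zero, mul_zero] at h1
    refine squeeze_zero_norm (fun i => ?_) h1
    rw [Real.norm_eq_abs]
    refine (hg _ (heC i)).trans ((list_le fun j => heP i _).trans ?_)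
    simp
  obtain ⟨w, hwC, hw⟩ : ∃ x ∈ (C : Set E), ∀ φ : E →L[ℝ] ℝ,
      Tendsto φ ((U : Filter ℕ).map z) (𝓝 (φ x)) := by
    refine hcomp _ inferInstance (Filter.mem_map.2 (Filter.univ_mem' hzC)) (fun φ => ?_)
    rw [Filter.map_map]
    exact (hF φ).cauchy_map
  have hw' : ∀ l : E →L[ℝ] ℝ, l w = F l := fun l =>
    tendsto_nhds_unique (tendsto_map'_iff.1 (hw l)) (hF l)
  have hPF : F P = 1 := by
    refine tendsto_nhds_unique (hF P) ?_
    simp only [hPz]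
    exact tendsto_const_nhds
  refine ⟨w, hwC, ?_, fun s hs => ?_⟩
  · intro h0
    have := hw' P
    rw [h0, map_zero, hPF] at this
    exact zero_ne_one this
  · let v : ℕ → E := fun i => (lam i)⁻¹ • z i + e i - ρ s (z i)
    have hat : ∀ l : E →L[ℝ] ℝ, Tendsto (fun i => l (v i)) (U : Filter ℕ)
        (𝓝 (κ * F l - F (l.comp (ρ s)))) := by
      intro l
      have h1 := ((hlamt.mul (hF l)).add (het l)).sub (hF (l.comp (ρ s)))
      rw [add_zero] at h1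
      refine h1.congr fun i => ?_
      simp only [v, map_sub, map_add, map_smul, smul_eq_mul, ContinuousLinearMap.comp_apply]
    obtain ⟨w', hwC', hw2⟩ : ∃ x ∈ (C : Set E), ∀ φ : E →L[ℝ] ℝ,
        Tendsto φ ((U : Filter ℕ).map v) (𝓝 (φ x)) := by
      refine hcomp _ inferInstance (Filter.mem_map.2 (Filter.univ_mem' fun i => hstep i s hs))
        (fun φ => ?_)
      rw [Filter.map_map]
      exact (hat φ).cauchy_map
    have heq : w' = κ • w - ρ s w := by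
      by_contra hne
      obtain ⟨l, hl⟩ := SeparatingDual.exists_separating_of_ne (R := ℝ) hne
      apply hl
      rw [tendsto_nhds_unique (tendsto_map'_iff.1 (hw2 l)) (hat l), map_sub, map_smul,
        smul_eq_mul, hw' l]
      have h1 : l (ρ s w) = (l.comp (ρ s)) w := rfl
      rw [h1, hw']
    rw [← heq]
    exact hwC'

end Pool.Agent.Y111.GT
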